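import Pool.Agent.Lib.MP_8a89f5_al.Q2Main

open Filter Topology

theorem Pool.Agent.Results.MP_8a89f5_al.LinearPolylog.result :
    ∃ C : ℝ, Tendsto (fun n : ℕ =>
      (Nat.card {p : alternatingGroup (Fin n) × alternatingGroup (Fin n) //
        ∀ g : alternatingGroup (Fin n), ∃ l : List (alternatingGroup (Fin n)),
          (∀ z ∈ l, z = p.1 ∨ z = p.2 ∨ z = p.1⁻¹ ∨ z = p.2⁻¹) ∧ l.prod = g ∧
            (l.length : ℝ) ≤ (n : ℝ) * Real.log n ^ C} : ℝ) /
        Nat.card (alternatingGroup (Fin n) × alternatingGroup (Fin n))) atTop (𝓝 1) :=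
  Pool.Agent.Lib.MP_8a89f5_al.diam_lin
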